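import Pool.Agent.N490.FG.KR

/-!
# `F_4(C ⊕ D)` is a `k_R`-space
-/

set_option autoImplicit false

namespace Pool.Agent.Results.MP_c880a5_gt.SequencePlusDiscrete

open Pool.Agent.N490.FG

universe u

/-- The convergent sequence `{0} ∪ {1/m : m ≥ 1}`, as a subspace of the real line. -/
abbrev C : Type := {x : ℝ // x = 0 ∨ ∃ m : ℕ, x = 1 / ((m : ℝ) + 1)}

theorem isCompact_C : CompactSpace C := by
  have h : Filter.Tendsto (fun m : ℕ => 1 / ((m : ℝ) + 1)) Filter.atTop (nhds 0) :=
    tendsto_one_div_add_atTop_nhds_zero_nat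
  have h1 := h.isCompact_insert_range
  have h2 : insert (0 : ℝ) (Set.range fun m : ℕ => 1 / ((m : ℝ) + 1)) =
      {x : ℝ | x = 0 ∨ ∃ m : ℕ, x = 1 / ((m : ℝ) + 1)} := by
    ext x
    simp only [Set.mem_insert_iff, Set.mem_range]
    constructor
    · rintro (h | ⟨m, h⟩)
      · exact Or.inl h
      · exact Or.inr ⟨m, h.symm⟩
    · rintro (h | ⟨m, h⟩)
      · exact Or.inl h
      · exact Or.inr ⟨m, h.symm⟩
  rw [h2] at h1
  exact isCompact_iff_compactSpace.1 h1

/-- If `K` is compact metrizable and `D` is discrete, then `F_4(K ⊕ D)` is a `k_R`-space. -/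
theorem general (K : Type) [TopologicalSpace K] [TopologicalSpace.MetrizableSpace K] [CompactSpace K]
    (D : Type u) [TopologicalSpace D] [DiscreteTopology D] : IsKR (FLevel 4 (K ⊕ D)) := by
  have h1 : TopologicalSpace.MetrizableSpace (K ⊕ D) := by
    let _ : MetricSpace K := TopologicalSpace.metrizableSpaceMetric K
    let _ : MetricSpace D := TopologicalSpace.metrizableSpaceMetric D
    let m : MetricSpace (K ⊕ D) := Metric.metricSpaceSum
    have h : @TopologicalSpace.MetrizableSpace (K ⊕ D) m.toPseudoMetricSpace.toUniformSpace.toTopologicalSpace :=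
      inferInstance
    exact h
  refine (fu_kr (K ⊕ D) ?_).2
  have h2 : IsClosed {x : K ⊕ D | ¬ IsOpen ({x} : Set (K ⊕ D))} := by
    rw [← isOpen_compl_iff]
    have : {x : K ⊕ D | ¬ IsOpen ({x} : Set (K ⊕ D))}ᶜ =
        ⋃ x ∈ {x : K ⊕ D | IsOpen ({x} : Set (K ⊕ D))}, {x} := by
      ext x; simp
    rw [this]
    exact isOpen_biUnion fun x hx => hx
  have h3 : {x : K ⊕ D | ¬ IsOpen ({x} : Set (K ⊕ D))} ⊆ Set.range Sum.inl := by
    rintro (x | d) hx
    · exact ⟨x, rfl⟩
    · exfalso
      refine hx ?_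
      have : ({Sum.inr d} : Set (K ⊕ D)) = Sum.inr '' {d} := by simp
      rw [this]
      exact isOpenMap_inr _ (isOpen_discrete _)
  exact (isCompact_range continuous_inl).of_isClosed_subset h2 h3

/-- For every discrete space `D`, the space `F_4(C ⊕ D)` is a `k_R`-space. -/
theorem result (D : Type u) [TopologicalSpace D] [DiscreteTopology D] : IsKR (FLevel 4 (C ⊕ D)) :=
  have := isCompact_C
  general C D

end Pool.Agent.Results.MP_c880a5_gt.SequencePlusDiscrete
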